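import Mathlib

/-!
# Sets invariant under two incommensurable translations, and lower bounds for sines
-/

set_option autoImplicit false

open MeasureTheory Filter Topology

namespace Q289.ZO

theorem mem_add_int {E : Set ℝ} (h1 : ∀ x, x + 1 ∈ E ↔ x ∈ E) (k : ℤ) (x : ℝ) :
    x + k ∈ E ↔ x ∈ E := by
  induction k using Int.induction_on with
  | zero => simp
  | succ k ih =>
    push_cast at ih ⊢
    rw [← add_assoc, h1, ih]
  | pred k ih =>
    push_cast at ih ⊢
    rw [← h1]
    have : x + (-(k : ℝ) - 1) + 1 = x + -(k : ℝ) := by ring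
    rw [this, ih]

/-- the set on the circle -/
def circ (E : Set ℝ) : Set UnitAddCircle := {x | ∃ ρ ∈ E, (ρ : UnitAddCircle) = x}

theorem coe_mem_circ {E : Set ℝ} (h1 : ∀ x, x + 1 ∈ E ↔ x ∈ E) (ρ : ℝ) :
    (ρ : UnitAddCircle) ∈ circ E ↔ ρ ∈ E := by
  constructor
  · rintro ⟨ρ', h, he⟩
    have h2 : ((ρ - ρ' : ℝ) : UnitAddCircle) = 0 := by
      rw [AddCircle.coe_sub, he, sub_self]
    obtain ⟨k, hk⟩ := (AddCircle.coe_eq_zero_iff 1).1 h2
    have h3 : ρ = ρ' + k := by
      rw [zsmul_eq_mul, mul_one] at hk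
      linarith
    rw [h3]
    exact (mem_add_int h1 k ρ').2 h
  · intro h
    exact ⟨ρ, h, rfl⟩

theorem measurableSet_circ {E : Set ℝ} (hE : MeasurableSet E) (h1 : ∀ x, x + 1 ∈ E ↔ x ∈ E) :
    MeasurableSet (circ E) := by
  have h2 : circ E = (AddCircle.measurableEquivIoc 1 0) ⁻¹' (Subtype.val ⁻¹' E) := by
    ext x
    have h3 : ((AddCircle.measurableEquivIoc 1 0 x : ℝ) : UnitAddCircle) = x :=
      (AddCircle.equivIoc (1 : ℝ) 0).symm_apply_apply x
    rw [Set.mem_preimage, Set.mem_preimage, ← coe_mem_circ h1, h3]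
  rw [h2]
  exact (AddCircle.measurableEquivIoc 1 0).measurable (measurable_subtype_coe hE)

theorem volume_circ {E : Set ℝ} (hE : MeasurableSet E) (h1 : ∀ x, x + 1 ∈ E ↔ x ∈ E) (t : ℝ) :
    volume (E ∩ Set.Ioc t (t + 1)) = volume (circ E) := by
  rw [← (UnitAddCircle.measurePreserving_mk t).measure_preimage
    (measurableSet_circ hE h1).nullMeasurableSet, Measure.restrict_apply]
  · congr 2
    ext x
    exact (coe_mem_circ h1 x).symm
  · exact (UnitAddCircle.measurePreserving_mk t).measurable (measurableSet_circ hE h1)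

/-- a measurable set invariant under `1` and under an irrational number is null or conull -/
theorem zero_one {β : ℝ} (hβ : Irrational β) {E : Set ℝ} (hE : MeasurableSet E)
    (h1 : ∀ x, x + 1 ∈ E ↔ x ∈ E) (h2 : ∀ x, x + β ∈ E ↔ x ∈ E) :
    volume E = 0 ∨ volume Eᶜ = 0 := by
  have herg : Ergodic ((β : UnitAddCircle) + ·) := by
    rw [AddCircle.ergodic_add_left, ← AddCircle.denseRange_zsmul_iff,
      AddCircle.denseRange_zsmul_coe_iff, div_one]
    exact hβ
  have hm := measurableSet_circ hE h1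
  have hpre : ((β : UnitAddCircle) + ·) ⁻¹' circ E = circ E := by
    ext x
    induction x using QuotientAddGroup.induction_on with
    | H x =>
      rw [Set.mem_preimage]
      have h3 : (β : UnitAddCircle) + (x : UnitAddCircle) = ((x + β : ℝ) : UnitAddCircle) := by
        rw [AddCircle.coe_add, add_comm]
      change (β : UnitAddCircle) + (x : UnitAddCircle) ∈ circ E ↔ (x : UnitAddCircle) ∈ circ E
      rw [h3, coe_mem_circ h1, coe_mem_circ h1, h2]
  have hcompl : circ Eᶜ = (circ E)ᶜ := by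
    have h1' : ∀ x, x + 1 ∈ Eᶜ ↔ x ∈ Eᶜ := fun x => not_congr (h1 x)
    ext x
    induction x using QuotientAddGroup.induction_on with
    | H x =>
      change (x : UnitAddCircle) ∈ circ Eᶜ ↔ (x : UnitAddCircle) ∈ (circ E)ᶜ
      rw [coe_mem_circ h1', Set.mem_compl_iff, Set.mem_compl_iff, coe_mem_circ h1]
  have hnull : ∀ F : Set ℝ, MeasurableSet F → (∀ x, x + 1 ∈ F ↔ x ∈ F) → volume (circ F) = 0 →
      volume F = 0 := by
    intro F hF h1F h0
    have h4 : F ⊆ ⋃ k : ℤ, F ∩ Set.Ioc (k : ℝ) (k + 1) := by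
      intro x hx
      rw [Set.mem_iUnion]
      refine ⟨⌈x⌉ - 1, hx, ?_, ?_⟩
      · push_cast
        linarith [Int.ceil_lt_add_one x]
      · push_cast
        linarith [Int.le_ceil x]
    refine measure_mono_null h4 ?_
    rw [measure_iUnion_null_iff]
    intro k
    rw [volume_circ hF h1F, h0]
  rcases herg.measure_self_or_compl_eq_zero hm hpre with h | h
  · exact Or.inl (hnull E hE h1 h)
  · right
    refine hnull Eᶜ hE.compl (fun x => not_congr (h1 x)) ?_
    rw [hcompl]; exact h

theorem ae_circle (a : UnitAddCircle) :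
    ∀ᵐ x : UnitAddCircle, ∀ᶠ n : ℕ in atTop, (1 / 2 : ℝ) ^ n ≤ ‖x + n • a‖ := by
  have h1 : ∑' n : ℕ, volume {x : UnitAddCircle | ‖x + n • a‖ < (1 / 2 : ℝ) ^ n} ≠ ⊤ := by
    have h2 : ∀ n : ℕ, volume {x : UnitAddCircle | ‖x + n • a‖ < (1 / 2 : ℝ) ^ n} ≤
        ENNReal.ofReal (2 * (1 / 2 : ℝ) ^ n) := by
      intro n
      have h3 : {x : UnitAddCircle | ‖x + n • a‖ < (1 / 2 : ℝ) ^ n} ⊆
          Metric.closedBall (-(n • a)) ((1 / 2 : ℝ) ^ n) := by
        intro x hx
        rw [Metric.mem_closedBall, dist_eq_norm, sub_neg_eq_add]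
        exact (show ‖x + n • a‖ < (1 / 2 : ℝ) ^ n from hx).le
      refine (measure_mono h3).trans ?_
      rw [AddCircle.volume_closedBall]
      exact ENNReal.ofReal_le_ofReal (min_le_right _ _)
    refine ne_top_of_le_ne_top ?_ (ENNReal.tsum_le_tsum h2)
    rw [← ENNReal.ofReal_tsum_of_nonneg (fun n => by positivity)
      ((summable_geometric_of_lt_one (by norm_num) (by norm_num)).mul_left _)]
    exact ENNReal.ofReal_ne_top
  filter_upwards [ae_eventually_notMem h1] with x hx
  filter_upwards [hx] with n hn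
  exact not_lt.1 hn

theorem ae_real_of_circle {P : UnitAddCircle → Prop} (h : ∀ᵐ x, P x) :
    ∀ᵐ x : ℝ, P (x : UnitAddCircle) := by
  have h1 : ∀ k : ℤ, ∀ᵐ x : ℝ ∂(volume.restrict (Set.Ioc (k : ℝ) (k + 1))),
      P (x : UnitAddCircle) := fun k =>
    (UnitAddCircle.measurePreserving_mk (k : ℝ)).quasiMeasurePreserving.ae h
  rw [← Measure.restrict_univ (μ := (volume : Measure ℝ)), ← iUnion_Ioc_intCast,
    ae_restrict_iUnion_iff]
  exact h1

theorem two_mul_norm_le (x : ℝ) : 2 * ‖(x : UnitAddCircle)‖ ≤ |Real.sin (Real.pi * x)| := by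
  rw [UnitAddCircle.norm_eq]
  set y := x - round x with hy
  have h1 : |Real.sin (Real.pi * x)| = |Real.sin (Real.pi * y)| := by
    have h2 : Real.pi * x = Real.pi * y + (round x : ℤ) * Real.pi := by rw [hy]; ring
    rw [h2, Real.sin_add_int_mul_pi, abs_mul, abs_zpow, abs_neg, abs_one, one_zpow, one_mul]
  have h3 : |y| ≤ 1 / 2 := abs_sub_round x
  have h4 : |Real.sin (Real.pi * y)| = Real.sin (Real.pi * |y|) := by
    rcases le_total 0 y with h | h
    · rw [abs_of_nonneg h, abs_of_nonneg]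
      apply Real.sin_nonneg_of_nonneg_of_le_pi (by positivity)
      rw [abs_of_nonneg h] at h3
      nlinarith [Real.pi_pos]
    · rw [abs_of_nonpos h, mul_neg, Real.sin_neg, abs_of_nonpos]
      rw [abs_of_nonpos h] at h3
      have : 0 ≤ Real.sin (Real.pi * (-y)) := by
        apply Real.sin_nonneg_of_nonneg_of_le_pi
        · have : 0 ≤ -y := by linarith
          positivity
        · nlinarith [Real.pi_pos]
      rw [mul_neg, Real.sin_neg] at this
      linarith
  rw [h1, h4]
  have h5 := Real.mul_le_sin (x := Real.pi * |y|) (by positivity) (by nlinarith [Real.pi_pos])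
  calc 2 * |y| = 2 / Real.pi * (Real.pi * |y|) := by
        field_simp
    _ ≤ _ := h5

theorem ae_sin (a : ℝ) :
    ∀ᵐ x : ℝ, ∀ᶠ n : ℕ in atTop, (1 / 2 : ℝ) ^ n ≤ |Real.sin (Real.pi * (x + n * a))| := by
  filter_upwards [ae_real_of_circle (ae_circle (a : UnitAddCircle))] with x hx
  filter_upwards [hx] with n hn
  refine hn.trans ?_
  have h1 := two_mul_norm_le (x + n * a)
  have h2 : ((x + n * a : ℝ) : UnitAddCircle) = (x : UnitAddCircle) + n • (a : UnitAddCircle) := by
    rw [AddCircle.coe_add, ← AddCircle.coe_nsmul, nsmul_eq_mul]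
  rw [h2] at h1
  have h3 := norm_nonneg ((x : UnitAddCircle) + n • (a : UnitAddCircle))
  linarith

/-- generic points for the rotation by `a` -/
def Good (a : ℝ) : Set ℝ := {x | (∀ k : ℤ, Real.sin (Real.pi * (x + k * a)) ≠ 0) ∧
  ∃ j : ℕ, ∀ n : ℕ, 1 / ((j : ℝ) + 1) * (1 / 2) ^ n ≤ |Real.sin (Real.pi * (x + n * a))|}

theorem ae_good (a : ℝ) : ∀ᵐ x : ℝ, x ∈ Good a := by
  have h1 : ∀ᵐ x : ℝ, ∀ k : ℤ, Real.sin (Real.pi * (x + k * a)) ≠ 0 := by
    rw [ae_all_iff]
    intro k
    have h2 : {x : ℝ | Real.sin (Real.pi * (x + k * a)) = 0} ⊆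
        Set.range fun l : ℤ => (l : ℝ) - k * a := by
      intro x hx
      obtain ⟨l, hl⟩ := Real.sin_eq_zero_iff.1 hx
      refine ⟨l, ?_⟩
      have h3 : (l : ℝ) = x + k * a := by
        have := mul_right_cancel₀ Real.pi_ne_zero (hl.trans (mul_comm _ _))
        exact this
      simp only
      linarith
    have h3 : volume {x : ℝ | Real.sin (Real.pi * (x + k * a)) = 0} = 0 :=
      measure_mono_null h2 ((Set.countable_range _).measure_zero _)
    rw [ae_iff]
    simpa using h3
  filter_upwards [h1, ae_sin a] with x hx1 hx2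
  refine ⟨hx1, ?_⟩
  obtain ⟨N, hN⟩ := eventually_atTop.1 hx2
  -- the minimum over the first `N` terms
  have hpos : ∀ n : ℕ, 0 < |Real.sin (Real.pi * (x + n * a))| := fun n => by
    have := hx1 n
    push_cast at this
    exact abs_pos.2 this
  have hex : ∀ M : ℕ, ∃ j : ℕ, ∀ n : ℕ, n < M →
      1 / ((j : ℝ) + 1) ≤ |Real.sin (Real.pi * (x + n * a))| := by
    intro M
    induction M with
    | zero => exact ⟨0, fun n hn => absurd hn (Nat.not_lt_zero n)⟩
    | succ M ih =>
      obtain ⟨j, hj⟩ := ih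
      obtain ⟨l, hl⟩ := exists_nat_one_div_lt (hpos M)
      refine ⟨max j l, fun n hn => ?_⟩
      rcases Nat.lt_succ_iff_lt_or_eq.1 hn with h | h
      · refine le_trans ?_ (hj n h)
        apply one_div_le_one_div_of_le (by positivity)
        have : (j : ℝ) ≤ (max j l : ℕ) := by exact_mod_cast le_max_left j l
        linarith
      · rw [h]
        refine le_trans ?_ hl.le
        apply one_div_le_one_div_of_le (by positivity)
        have : (l : ℝ) ≤ (max j l : ℕ) := by exact_mod_cast le_max_right j l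
        linarith
  obtain ⟨j, hj⟩ := hex N
  refine ⟨j, fun n => ?_⟩
  have hle1 : 1 / ((j : ℝ) + 1) ≤ 1 := by
    rw [div_le_one (by positivity)]
    have := Nat.cast_nonneg (α := ℝ) j
    linarith
  rcases lt_or_ge n N with h | h
  · refine le_trans ?_ (hj n h)
    have h5 : (1 / 2 : ℝ) ^ n ≤ 1 := pow_le_one₀ (by norm_num) (by norm_num)
    have h6 : 0 ≤ 1 / ((j : ℝ) + 1) := by positivity
    nlinarith
  · refine le_trans ?_ (hN n h)
    have h5 : (0 : ℝ) ≤ (1 / 2) ^ n := by positivity
    nlinarith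

theorem good_add_one (a x : ℝ) : x + 1 ∈ Good a ↔ x ∈ Good a := by
  have h1 : ∀ t : ℝ, |Real.sin (Real.pi * (x + 1 + t))| = |Real.sin (Real.pi * (x + t))| := by
    intro t
    have : Real.pi * (x + 1 + t) = Real.pi * (x + t) + Real.pi := by ring
    rw [this, Real.sin_add_pi, abs_neg]
  have h2 : ∀ t : ℝ, Real.sin (Real.pi * (x + 1 + t)) ≠ 0 ↔ Real.sin (Real.pi * (x + t)) ≠ 0 := by
    intro t
    rw [← abs_ne_zero, h1, abs_ne_zero]
  unfold Good
  simp only [Set.mem_ofPred_eq, h1, h2]

theorem good_add_self (a x : ℝ) : x + a ∈ Good a ↔ x ∈ Good a := by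
  constructor
  · rintro ⟨h1, j, h2⟩
    have h3 : ∀ k : ℤ, Real.sin (Real.pi * (x + k * a)) ≠ 0 := by
      intro k
      have := h1 (k - 1)
      push_cast at this
      have h4 : x + a + ((k : ℝ) - 1) * a = x + k * a := by ring
      rwa [h4] at this
    refine ⟨h3, ?_⟩
    have hpos : 0 < |Real.sin (Real.pi * x)| := by
      have := h3 0
      push_cast at this
      rw [zero_mul, add_zero] at this
      exact abs_pos.2 this
    obtain ⟨l, hl⟩ := exists_nat_one_div_lt hpos
    refine ⟨max j l, fun n => ?_⟩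
    have hj : 1 / (((max j l : ℕ) : ℝ) + 1) ≤ 1 / ((j : ℝ) + 1) := by
      apply one_div_le_one_div_of_le (by positivity)
      have : (j : ℝ) ≤ (max j l : ℕ) := by exact_mod_cast le_max_left j l
      linarith
    have hl' : 1 / (((max j l : ℕ) : ℝ) + 1) ≤ 1 / ((l : ℝ) + 1) := by
      apply one_div_le_one_div_of_le (by positivity)
      have : (l : ℝ) ≤ (max j l : ℕ) := by exact_mod_cast le_max_right j l
      linarith
    cases n with
    | zero =>
      rw [pow_zero, mul_one]
      push_cast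
      rw [zero_mul, add_zero]
      have := hl'.trans hl.le
      push_cast at this
      exact this
    | succ n =>
      have h5 := h2 n
      have h6 : x + a + (n : ℝ) * a = x + ((n + 1 : ℕ) : ℝ) * a := by push_cast; ring
      rw [h6] at h5
      refine le_trans ?_ h5
      refine mul_le_mul hj ?_ (by positivity) (by positivity)
      rw [pow_succ]
      have : (0 : ℝ) ≤ (1 / 2) ^ n := by positivity
      linarith
  · rintro ⟨h1, j, h2⟩
    refine ⟨?_, 2 * j + 1, fun n => ?_⟩
    · intro k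
      have := h1 (k + 1)
      push_cast at this
      have h4 : x + ((k : ℝ) + 1) * a = x + a + k * a := by ring
      rwa [h4] at this
    · have h5 := h2 (n + 1)
      have h6 : x + ((n + 1 : ℕ) : ℝ) * a = x + a + (n : ℝ) * a := by push_cast; ring
      rw [h6] at h5
      refine le_trans (le_of_eq ?_) h5
      rw [pow_succ]
      push_cast
      field_simp
      ring

theorem measurableSet_good (a : ℝ) : MeasurableSet (Good a) := by
  have h1 : Good a = (⋂ k : ℤ, {x : ℝ | Real.sin (Real.pi * (x + k * a)) ≠ 0}) ∩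
      ⋃ j : ℕ, ⋂ n : ℕ,
        {x : ℝ | 1 / ((j : ℝ) + 1) * (1 / 2) ^ n ≤ |Real.sin (Real.pi * (x + n * a))|} := by
    ext x
    simp only [Good, Set.mem_ofPred_eq, Set.mem_inter_iff, Set.mem_iInter, Set.mem_iUnion]
  rw [h1]
  refine MeasurableSet.inter (MeasurableSet.iInter fun k => ?_)
    (MeasurableSet.iUnion fun j => MeasurableSet.iInter fun n => ?_)
  · exact (measurableSet_eq_fun (by fun_prop) (by fun_prop)).compl
  · exact measurableSet_le (by fun_prop) (by fun_prop)

end Q289.ZO
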