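import Mathlib

/-!
# The double series for the density of the supremum of a stable process
-/

set_option autoImplicit false

namespace Q289.ZO

/-- the coefficient `a_{m,n}` -/
noncomputable def aCoef (α ρ : ℝ) (m n : ℕ) : ℝ :=
  (-1) ^ (m + n) / (Real.Gamma (1 - ρ - n - m / α) * Real.Gamma (α * ρ + m + α * n)) *
    (∏ j ∈ Finset.Icc 1 m,
      Real.sin (Real.pi / α * (α * ρ + j - 1)) / Real.sin (Real.pi * j / α)) *
    ∏ j ∈ Finset.Icc 1 n, Real.sin (Real.pi * α * (ρ + j - 1)) / Real.sin (Real.pi * α * j)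

/-- the coefficient `b_{m,n}` -/
noncomputable def bCoef (α ρ : ℝ) (m n : ℕ) : ℝ :=
  Real.Gamma (1 - ρ - n - m / α) * Real.Gamma (α * ρ + m + α * n) /
    (Real.Gamma (1 + n + m / α) * Real.Gamma (-m - α * n)) * aCoef α ρ m n

/-- the term of index `(m, n)` of the series attached to `(α, ρ)` at the point `x` -/
noncomputable def term (α ρ x : ℝ) (m n : ℕ) : ℝ :=
  if α < 1 then x ^ (-1 - α) * (bCoef α ρ m (n + 1) * x ^ (-(m : ℝ) - α * n))
  else x ^ (α * ρ - 1) * (aCoef α ρ m n * x ^ ((m : ℝ) + α * n))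

/-- the series converges absolutely at `(α, ρ)`: the double sum of the absolute values of its terms
is finite for every `x > 0` -/
def AbsConv (α ρ : ℝ) : Prop :=
  ∀ x : ℝ, 0 < x → Summable fun p : ℕ × ℕ => |term α ρ x p.1 p.2|

end Q289.ZO
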