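import Pool.Agent.Q289.ZO.Products
import Pool.Agent.Q289.ZO.Defs

/-!
# The zero-one law for absolute convergence
-/

set_option autoImplicit false

open MeasureTheory Filter Topology

namespace Q289.ZO

theorem convex_four {f : ℝ → ℝ} (hf : ConvexOn ℝ (Set.Ioi 0) f) {s t M : ℝ} (ht : 0 < t)
    (hts : t ≤ s) (hM : 0 ≤ M) : f s + f (t + M) ≤ f t + f (s + M) := by
  rcases (add_nonneg (sub_nonneg.2 hts) hM).eq_or_lt with h | h
  · have h1 : s = t := by linarith
    have h2 : M = 0 := by linarith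
    rw [h1, h2, add_zero]
  · set D := s - t + M with hD
    set l := M / D with hl
    have hl0 : 0 ≤ l := by positivity
    have hl1 : 0 ≤ 1 - l := by
      rw [hl, sub_nonneg, div_le_one h]
      linarith
    have hlD : l * D = M := by rw [hl]; field_simp
    have hst : t ∈ Set.Ioi (0 : ℝ) := ht
    have hsM : s + M ∈ Set.Ioi (0 : ℝ) := by
      change 0 < s + M
      linarith
    have h1 := hf.2 hst hsM hl0 hl1 (by ring)
    have h2 := hf.2 hst hsM hl1 hl0 (by ring)
    simp only [smul_eq_mul] at h1 h2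
    have e1 : l * t + (1 - l) * (s + M) = s := by
      have : l * t + (1 - l) * (s + M) = s + M - l * D := by rw [hD]; ring
      rw [this, hlD]; ring
    have e2 : (1 - l) * t + l * (s + M) = t + M := by
      have : (1 - l) * t + l * (s + M) = t + l * D := by rw [hD]; ring
      rw [this, hlD]
    rw [e1] at h1
    rw [e2] at h2
    linarith

theorem gamma_compare {s t : ℝ} (hs : 0 < s) (ht : 0 < t) :
    ∃ C : ℝ, 0 < C ∧ ∀ M : ℝ, 0 ≤ M →
      Real.Gamma (t + M) ≤ C * Real.exp M * Real.Gamma (s + M) := by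
  have hconv := Real.convexOn_log_Gamma
  rcases le_or_gt t s with h | h
  · refine ⟨Real.Gamma t / Real.Gamma s, div_pos (Real.Gamma_pos_of_pos ht)
      (Real.Gamma_pos_of_pos hs), fun M hM => ?_⟩
    have h1 := convex_four hconv ht h hM
    simp only [Function.comp_apply] at h1
    have hgs := Real.Gamma_pos_of_pos hs
    have hgt := Real.Gamma_pos_of_pos ht
    have hgsM := Real.Gamma_pos_of_pos (by linarith : 0 < s + M)
    have hgtM := Real.Gamma_pos_of_pos (by linarith : 0 < t + M)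
    rw [← Real.log_mul hgs.ne' hgtM.ne', ← Real.log_mul hgt.ne' hgsM.ne'] at h1
    have h2 := (Real.log_le_log_iff (by positivity) (by positivity)).1 h1
    have h3 : Real.Gamma (t + M) ≤ Real.Gamma t / Real.Gamma s * Real.Gamma (s + M) := by
      rw [div_mul_eq_mul_div, le_div_iff₀ hgs]
      linarith
    have h4 : 1 ≤ Real.exp M := Real.one_le_exp hM
    calc Real.Gamma (t + M) ≤ Real.Gamma t / Real.Gamma s * Real.Gamma (s + M) := h3
      _ ≤ Real.Gamma t / Real.Gamma s * Real.exp M * Real.Gamma (s + M) := by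
          apply mul_le_mul_of_nonneg_right _ hgsM.le
          apply le_mul_of_one_le_right (by positivity) h4
  · set p := t - s with hp
    have hp0 : 0 < p := by linarith
    refine ⟨p ^ p * Real.exp t, by positivity, fun M hM => ?_⟩
    have hgsM := Real.Gamma_pos_of_pos (by linarith : 0 < s + M)
    have hgtM := Real.Gamma_pos_of_pos (by linarith : 0 < t + M)
    have htM : 0 < t + M := by linarith
    have hgtM1 := Real.Gamma_pos_of_pos (by linarith : 0 < t + M + 1)
    have h1 := hconv.slope_mono_adjacent (x := s + M) (y := t + M) (z := t + M + 1)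
      (show 0 < s + M by linarith) (show 0 < t + M + 1 by linarith) (by linarith) (by linarith)
    simp only [Function.comp_apply] at h1
    have h2 : t + M + 1 - (t + M) = 1 := by ring
    have h3 : t + M - (s + M) = p := by rw [hp]; ring
    rw [h2, h3, div_one, div_le_iff₀ hp0] at h1
    have h4 : Real.log (Real.Gamma (t + M + 1)) - Real.log (Real.Gamma (t + M)) =
        Real.log (t + M) := by
      rw [Real.Gamma_add_one htM.ne', Real.log_mul htM.ne' hgtM.ne']
      ring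
    rw [h4] at h1
    have h5 : Real.Gamma (t + M) ≤ (t + M) ^ p * Real.Gamma (s + M) := by
      have h6 : Real.log (Real.Gamma (t + M)) ≤ Real.log ((t + M) ^ p * Real.Gamma (s + M)) := by
        rw [Real.log_mul (by positivity) hgsM.ne', Real.log_rpow htM]
        linarith
      exact (Real.log_le_log_iff hgtM (by positivity)).1 h6
    have h7 : (t + M) ^ p ≤ p ^ p * Real.exp (t + M) := by
      have h8 : (t + M) / p ≤ Real.exp ((t + M) / p) := by
        have := Real.add_one_le_exp ((t + M) / p)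
        linarith
      have h9 : (t + M) ≤ p * Real.exp ((t + M) / p) := by
        rw [div_le_iff₀ hp0] at h8
        linarith
      calc (t + M) ^ p ≤ (p * Real.exp ((t + M) / p)) ^ p :=
            Real.rpow_le_rpow htM.le h9 hp0.le
        _ = p ^ p * Real.exp (t + M) := by
            rw [Real.mul_rpow hp0.le (Real.exp_pos _).le, ← Real.exp_mul]
            congr 2
            field_simp
    calc Real.Gamma (t + M) ≤ (t + M) ^ p * Real.Gamma (s + M) := h5
      _ ≤ p ^ p * Real.exp (t + M) * Real.Gamma (s + M) :=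
          mul_le_mul_of_nonneg_right h7 hgsM.le
      _ = p ^ p * Real.exp t * Real.exp M * Real.Gamma (s + M) := by
          rw [Real.exp_add]; ring

theorem entire_iff_rpow {α : ℝ} (h0 : 0 < α) (h2 : α < 2) {u : ℕ → ℕ → ℝ}
    (hu : ∀ m n, 0 ≤ u m n) :
    Entire u ↔ ∀ y : ℝ, 0 < y →
      Summable fun p : ℕ × ℕ => u p.1 p.2 * y ^ ((p.1 : ℝ) + α * p.2) := by
  constructor
  · intro h y hy
    set Y := max y 1 with hY
    have hY1 : 1 ≤ Y := le_max_right _ _
    have hY0 : 0 < Y := by linarith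
    refine (h (Y ^ 2) (by positivity)).of_nonneg_of_le
      (fun p => mul_nonneg (hu _ _) (by positivity)) fun p => ?_
    refine mul_le_mul_of_nonneg_left ?_ (hu _ _)
    have he0 : 0 ≤ (p.1 : ℝ) + α * p.2 := by positivity
    calc y ^ ((p.1 : ℝ) + α * p.2) ≤ Y ^ ((p.1 : ℝ) + α * p.2) :=
          Real.rpow_le_rpow hy.le (le_max_left _ _) he0
      _ ≤ Y ^ (((2 * (p.1 + p.2) : ℕ) : ℝ)) := by
          apply Real.rpow_le_rpow_of_exponent_le hY1
          push_cast
          have h3 : (0 : ℝ) ≤ p.1 := Nat.cast_nonneg _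
          have h4 : (0 : ℝ) ≤ p.2 := Nat.cast_nonneg _
          nlinarith
      _ = (Y ^ 2) ^ (p.1 + p.2) := by
          rw [Real.rpow_natCast, ← pow_mul]
  · intro h R hR
    set Y := max R 1 with hY
    have hY1 : 1 ≤ Y := le_max_right _ _
    have hY0 : 0 < Y := by linarith
    refine (h (Y ^ (1 + 1 / α)) (by positivity)).of_nonneg_of_le
      (fun p => mul_nonneg (hu _ _) (by positivity)) fun p => ?_
    refine mul_le_mul_of_nonneg_left ?_ (hu _ _)
    calc R ^ (p.1 + p.2) ≤ Y ^ (p.1 + p.2) := pow_le_pow_left₀ hR.le (le_max_left _ _) _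
      _ = Y ^ (((p.1 + p.2 : ℕ) : ℝ)) := by rw [Real.rpow_natCast]
      _ ≤ Y ^ ((1 + 1 / α) * ((p.1 : ℝ) + α * p.2)) := by
          apply Real.rpow_le_rpow_of_exponent_le hY1
          push_cast
          have h3 : (0 : ℝ) ≤ p.1 := Nat.cast_nonneg _
          have h4 : (0 : ℝ) ≤ p.2 := Nat.cast_nonneg _
          have h5 : (1 + 1 / α) * ((p.1 : ℝ) + α * p.2) = p.1 + α * p.2 + p.1 / α + p.2 := by
            field_simp
            ring
          rw [h5]
          have : 0 ≤ α * (p.2 : ℝ) := by positivity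
          have : 0 ≤ (p.1 : ℝ) / α := by positivity
          linarith
      _ = (Y ^ (1 + 1 / α)) ^ ((p.1 : ℝ) + α * p.2) := by
          rw [Real.rpow_mul hY0.le]

theorem prod_Icc (f : ℕ → ℝ) (m : ℕ) :
    ∏ j ∈ Finset.Icc 1 m, f j = ∏ j ∈ Finset.range m, f (j + 1) := by
  induction m with
  | zero => simp
  | succ m ih => rw [Finset.prod_Icc_succ_top (by omega), Finset.prod_range_succ, ih]

theorem abs_prod_one {α : ℝ} (hα : α ≠ 0) (ρ : ℝ) (m : ℕ) : |∏ j ∈ Finset.Icc 1 m,
      Real.sin (Real.pi / α * (α * ρ + j - 1)) / Real.sin (Real.pi * j / α)| =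
        F (1 / α) m ρ := by
  rw [prod_Icc, Finset.abs_prod]
  unfold F
  refine Finset.prod_congr rfl fun j _ => ?_
  rw [abs_div]
  congr 3
  · push_cast; field_simp; ring
  · push_cast; ring

theorem abs_prod_two (α ρ : ℝ) (n : ℕ) : |∏ j ∈ Finset.Icc 1 n,
      Real.sin (Real.pi * α * (ρ + j - 1)) / Real.sin (Real.pi * α * j)| = F α n (α * ρ) := by
  rw [prod_Icc, Finset.abs_prod]
  unfold F
  refine Finset.prod_congr rfl fun j _ => ?_
  rw [abs_div]
  congr 3
  · push_cast; ring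
  · push_cast; ring

theorem abs_aCoef {α : ℝ} (hα : α ≠ 0) (ρ : ℝ) (m n : ℕ) :
    |aCoef α ρ m n| = 1 / (|Real.Gamma (1 - ρ - n - m / α)| * |Real.Gamma (α * ρ + m + α * n)|) *
      F (1 / α) m ρ * F α n (α * ρ) := by
  unfold aCoef
  rw [abs_mul, abs_mul, abs_div, abs_mul, abs_pow, abs_neg, abs_one, one_pow, abs_prod_one hα,
    abs_prod_two]

theorem gamma_one_ne {α ρ : ℝ} (hg : ρ ∈ Good (1 / α)) (m n : ℕ) :
    Real.Gamma (1 - ρ - n - m / α) ≠ 0 := by
  apply Real.Gamma_ne_zero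
  intro l hl
  have h1 := hg.1 m
  apply h1
  have h2 : ρ + ((m : ℤ) : ℝ) * (1 / α) = ((1 - n + l : ℤ) : ℝ) := by
    push_cast
    have : (m : ℝ) * (1 / α) = m / α := by ring
    rw [this]
    linarith
  rw [h2, mul_comm]
  exact Real.sin_int_mul_pi _

theorem abs_bCoef {α ρ : ℝ} (hα : 0 < α) (hρ : 0 < ρ) (hg : ρ ∈ Good (1 / α)) (m n : ℕ) :
    |bCoef α ρ m n| = |1 / (Real.Gamma (1 + n + m / α) * Real.Gamma (-m - α * n))| *
      F (1 / α) m ρ * F α n (α * ρ) := by
  have h1 := gamma_one_ne hg m n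
  have h2 : Real.Gamma (α * ρ + m + α * n) ≠ 0 :=
    (Real.Gamma_pos_of_pos (by positivity)).ne'
  unfold bCoef
  rw [abs_mul, abs_aCoef hα.ne', abs_div, abs_mul, abs_div, abs_one]
  have h3 : |Real.Gamma (1 - ρ - n - m / α)| ≠ 0 := abs_ne_zero.2 h1
  have h4 : |Real.Gamma (α * ρ + m + α * n)| ≠ 0 := abs_ne_zero.2 h2
  generalize |Real.Gamma (1 - ρ - n - m / α)| = g1 at h3 ⊢
  generalize |Real.Gamma (α * ρ + m + α * n)| = g2 at h4 ⊢
  generalize |Real.Gamma (1 + n + m / α) * Real.Gamma (-m - α * n)| = g3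
  generalize F (1 / α) m ρ = f1
  generalize F α n (α * ρ) = f2
  by_cases hg3 : g3 = 0
  · simp [hg3]
  · field_simp

/-- the weights in the case `α < 1` -/
noncomputable def cOne (α : ℝ) (m n : ℕ) : ℝ :=
  |1 / (Real.Gamma (1 + ((n + 1 : ℕ) : ℝ) + m / α) * Real.Gamma (-m - α * ((n + 1 : ℕ) : ℝ)))|

/-- the weights in the case `α > 1` -/
noncomputable def cTwo (α : ℝ) (m n : ℕ) : ℝ :=
  Real.Gamma (1 + (n + m / α)) / Real.Gamma (1 + (m + α * n))

theorem absConv_one {α ρ : ℝ} (hα : 0 < α) (hα1 : α < 1) (hρ : 0 < ρ)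
    (hg : ρ ∈ Good (1 / α)) : AbsConv α ρ ↔ Entire (coef α (cOne α) 1 ρ) := by
  have hcoef : ∀ m n, |bCoef α ρ m (n + 1)| = coef α (cOne α) 1 ρ m n := by
    intro m n
    rw [abs_bCoef hα hρ hg]
    rfl
  have hc1 : ∀ m n, 0 ≤ cOne α m n := fun m n => abs_nonneg _
  rw [entire_iff_rpow hα (by linarith) (coef_nonneg hc1 1 ρ)]
  unfold AbsConv term
  simp only [if_pos hα1]
  have hkey : ∀ x : ℝ, 0 < x → ((Summable fun p : ℕ × ℕ =>
      |x ^ (-1 - α) * (bCoef α ρ p.1 (p.2 + 1) * x ^ (-(p.1 : ℝ) - α * p.2))|) ↔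
      Summable fun p : ℕ × ℕ => coef α (cOne α) 1 ρ p.1 p.2 * x⁻¹ ^ ((p.1 : ℝ) + α * p.2)) := by
    intro x hx
    have h1 : (fun p : ℕ × ℕ =>
      |x ^ (-1 - α) * (bCoef α ρ p.1 (p.2 + 1) * x ^ (-(p.1 : ℝ) - α * p.2))|) =
      fun p : ℕ × ℕ => x ^ (-1 - α) *
        (coef α (cOne α) 1 ρ p.1 p.2 * x⁻¹ ^ ((p.1 : ℝ) + α * p.2)) := by
      funext p
      rw [abs_mul, abs_mul, hcoef, abs_of_pos (Real.rpow_pos_of_pos hx _),
        abs_of_pos (Real.rpow_pos_of_pos hx _)]
      congr 2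
      rw [Real.inv_rpow hx.le, ← Real.rpow_neg hx.le]
      congr 1
      ring
    rw [h1, summable_mul_left_iff (Real.rpow_pos_of_pos hx _).ne']
  constructor
  · intro h y hy
    have := (hkey y⁻¹ (inv_pos.2 hy)).1 (h y⁻¹ (inv_pos.2 hy))
    rwa [inv_inv] at this
  · intro h x hx
    exact (hkey x hx).2 (h x⁻¹ (inv_pos.2 hx))

theorem absConv_two_aux {α ρ : ℝ} (hα1 : 1 < α) (hα2 : α < 2) :
    AbsConv α ρ ↔ Entire (fun m n => |aCoef α ρ m n|) := by
  rw [entire_iff_rpow (by linarith) hα2 (fun m n => abs_nonneg _)]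
  unfold AbsConv term
  simp only [if_neg (not_lt.2 hα1.le)]
  have hkey : ∀ x : ℝ, 0 < x → ((Summable fun p : ℕ × ℕ =>
      |x ^ (α * ρ - 1) * (aCoef α ρ p.1 p.2 * x ^ ((p.1 : ℝ) + α * p.2))|) ↔
      Summable fun p : ℕ × ℕ => |aCoef α ρ p.1 p.2| * x ^ ((p.1 : ℝ) + α * p.2)) := by
    intro x hx
    have h1 : (fun p : ℕ × ℕ =>
      |x ^ (α * ρ - 1) * (aCoef α ρ p.1 p.2 * x ^ ((p.1 : ℝ) + α * p.2))|) =
      fun p : ℕ × ℕ => x ^ (α * ρ - 1) *
        (|aCoef α ρ p.1 p.2| * x ^ ((p.1 : ℝ) + α * p.2)) := by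
      funext p
      rw [abs_mul, abs_mul, abs_of_pos (Real.rpow_pos_of_pos hx _),
        abs_of_pos (Real.rpow_pos_of_pos hx _)]
    rw [h1, summable_mul_left_iff (Real.rpow_pos_of_pos hx _).ne']
  exact forall_congr' fun x => imp_congr_right fun hx => hkey x hx

/-- the reflection formula -/
theorem abs_aCoef_two {α ρ : ℝ} (hα : 0 < α) (hρ : 0 < ρ) (hg : ρ ∈ Good (1 / α)) (m n : ℕ) :
    |aCoef α ρ m n| = |Real.sin (Real.pi * (ρ + m * (1 / α)))| / Real.pi *
      (Real.Gamma (ρ + (n + m / α)) / Real.Gamma (α * ρ + (m + α * n))) *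
      F (1 / α) m ρ * F α n (α * ρ) := by
  rw [abs_aCoef hα.ne']
  congr 2
  have h1 := gamma_one_ne hg m n
  have h2 := Real.Gamma_mul_Gamma_one_sub (ρ + (n + m / α))
  have h3 : (1 : ℝ) - (ρ + (n + m / α)) = 1 - ρ - n - m / α := by ring
  rw [h3] at h2
  have hG := Real.Gamma_pos_of_pos (show 0 < ρ + (n + m / α) by positivity)
  have hG2 := Real.Gamma_pos_of_pos (show 0 < α * ρ + (m + α * n) by positivity)
  have hs : |Real.sin (Real.pi * (ρ + (n + m / α)))| =
      |Real.sin (Real.pi * (ρ + m * (1 / α)))| := by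
    have : Real.pi * (ρ + (n + m / α)) = Real.pi * (ρ + m * (1 / α)) + n * Real.pi := by
      ring
    rw [this, Real.sin_add_nat_mul_pi, abs_mul, abs_pow, abs_neg, abs_one, one_pow, one_mul]
  have hsne : |Real.sin (Real.pi * (ρ + m * (1 / α)))| ≠ 0 := by
    have := hg.1 m
    push_cast at this
    exact abs_ne_zero.2 this
  have h4 := congrArg abs h2
  rw [abs_mul, abs_div, hs, abs_of_pos hG, abs_of_pos Real.pi_pos] at h4
  have h5 : |Real.Gamma (1 - ρ - n - m / α)| ≠ 0 := abs_ne_zero.2 h1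
  have h6 : α * ρ + m + α * n = α * ρ + (m + α * n) := by ring
  rw [h6, abs_of_pos hG2]
  rw [eq_div_iff hsne] at h4
  have h7 := Real.pi_ne_zero
  generalize |Real.Gamma (1 - ρ - n - m / α)| = g1 at h4 h5 ⊢
  have hG2' := hG2.ne'
  generalize Real.Gamma (α * ρ + (m + α * n)) = g2 at hG2' ⊢
  generalize Real.Gamma (ρ + (n + m / α)) = g3 at h4 ⊢
  generalize |Real.sin (Real.pi * (ρ + m * (1 / α)))| = s at h4 ⊢
  field_simp
  linarith

theorem absConv_two {α ρ : ℝ} (hα1 : 1 < α) (hα2 : α < 2) (hρ : 0 < ρ)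
    (hg : ρ ∈ Good (1 / α)) : AbsConv α ρ ↔ Entire (coef α (cTwo α) 0 ρ) := by
  have hα : 0 < α := by linarith
  rw [absConv_two_aux hα1 hα2]
  have hc : ∀ m n, 0 ≤ cTwo α m n := fun m n => div_nonneg
    (Real.Gamma_pos_of_pos (by positivity)).le (Real.Gamma_pos_of_pos (by positivity)).le
  obtain ⟨C1, hC1, h1⟩ := gamma_compare (s := 1) (t := ρ) one_pos hρ
  obtain ⟨C2, hC2, h2⟩ := gamma_compare (s := α * ρ) (t := 1) (by positivity) one_pos
  obtain ⟨C3, hC3, h3⟩ := gamma_compare (s := ρ) (t := 1) hρ one_pos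
  obtain ⟨C4, hC4, h4⟩ := gamma_compare (s := 1) (t := α * ρ) one_pos (by positivity)
  have hexp : ∀ m n : ℕ, Real.exp (n + m / α) * Real.exp (m + α * n) ≤
      Real.exp 3 ^ (m + n) := by
    intro m n
    rw [← Real.exp_add, ← Real.exp_nat_mul]
    apply Real.exp_le_exp.2
    push_cast
    have h5 : (0 : ℝ) ≤ m := Nat.cast_nonneg _
    have h6 : (0 : ℝ) ≤ n := Nat.cast_nonneg _
    have h7 : (m : ℝ) / α ≤ m := div_le_self h5 hα1.le
    nlinarith
  constructor
  · intro hE
    obtain ⟨hg1, j, hg2⟩ := hg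
    refine hE.mono (coef_nonneg hc 0 ρ) (C := C3 * C4 * (((j : ℝ) + 1) * Real.pi))
      (K := 2 * Real.exp 3) (by positivity) fun m n => ?_
    rw [abs_aCoef_two hα hρ ⟨hg1, j, hg2⟩]
    set s := |Real.sin (Real.pi * (ρ + m * (1 / α)))| with hs
    have hs1 : 1 ≤ ((j : ℝ) + 1) * 2 ^ m * s := by
      have h5 := hg2 m
      rw [← hs] at h5
      have h7 : (2 : ℝ) ^ m * (1 / 2) ^ m = 1 := by rw [← mul_pow]; norm_num
      calc (1 : ℝ) = ((j : ℝ) + 1) * 2 ^ m * (1 / ((j : ℝ) + 1) * (1 / 2) ^ m) := by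
            field_simp
            linear_combination (-1 : ℝ) * h7
        _ ≤ ((j : ℝ) + 1) * 2 ^ m * s := mul_le_mul_of_nonneg_left h5 (by positivity)
    have hG := Real.Gamma_pos_of_pos (show 0 < ρ + (n + m / α) by positivity)
    have hG2 := Real.Gamma_pos_of_pos (show 0 < α * ρ + (m + α * n) by positivity)
    have hG3 := Real.Gamma_pos_of_pos (show 0 < 1 + ((n : ℝ) + m / α) by positivity)
    have hG4 := Real.Gamma_pos_of_pos (show 0 < 1 + ((m : ℝ) + α * n) by positivity)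
    have hF := F_nonneg (1 / α) m ρ
    have hF' := F_nonneg α n (α * ρ)
    have h5 := h3 (n + m / α) (by positivity)
    have h6 := h4 (m + α * n) (by positivity)
    have h7 : cTwo α m n ≤ C3 * C4 * Real.exp 3 ^ (m + n) *
        (Real.Gamma (ρ + (n + m / α)) / Real.Gamma (α * ρ + (m + α * n))) := by
      unfold cTwo
      rw [mul_div_assoc', div_le_div_iff₀ hG4 hG2]
      calc Real.Gamma (1 + (n + m / α)) * Real.Gamma (α * ρ + (m + α * n))
          ≤ (C3 * Real.exp (n + m / α) * Real.Gamma (ρ + (n + m / α))) *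
            (C4 * Real.exp (m + α * n) * Real.Gamma (1 + (m + α * n))) :=
            mul_le_mul h5 h6 hG2.le (by positivity)
        _ = C3 * C4 * (Real.exp (n + m / α) * Real.exp (m + α * n)) *
            Real.Gamma (ρ + (n + m / α)) * Real.Gamma (1 + (m + α * n)) := by ring
        _ ≤ C3 * C4 * Real.exp 3 ^ (m + n) *
            Real.Gamma (ρ + (n + m / α)) * Real.Gamma (1 + (m + α * n)) := by
            apply mul_le_mul_of_nonneg_right _ hG4.le
            apply mul_le_mul_of_nonneg_right _ hG.le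
            exact mul_le_mul_of_nonneg_left (hexp m n) (by positivity)
    unfold coef
    rw [add_zero]
    set q := Real.Gamma (ρ + (n + m / α)) / Real.Gamma (α * ρ + (m + α * n)) with hq
    have hq0 : 0 < q := div_pos hG hG2
    calc cTwo α m n * F (1 / α) m ρ * F α n (α * ρ)
        ≤ (C3 * C4 * Real.exp 3 ^ (m + n) * q) * F (1 / α) m ρ * F α n (α * ρ) := by
          apply mul_le_mul_of_nonneg_right _ hF'
          exact mul_le_mul_of_nonneg_right h7 hF
      _ = (C3 * C4 * Real.exp 3 ^ (m + n) * q * F (1 / α) m ρ * F α n (α * ρ)) * 1 := by ring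
      _ ≤ (C3 * C4 * Real.exp 3 ^ (m + n) * q * F (1 / α) m ρ * F α n (α * ρ)) *
          (((j : ℝ) + 1) * 2 ^ m * s) := mul_le_mul_of_nonneg_left hs1 (by positivity)
      _ ≤ (C3 * C4 * Real.exp 3 ^ (m + n) * q * F (1 / α) m ρ * F α n (α * ρ)) *
          (((j : ℝ) + 1) * 2 ^ (m + n) * s) := by
          apply mul_le_mul_of_nonneg_left _ (by positivity)
          apply mul_le_mul_of_nonneg_right _ (abs_nonneg _)
          apply mul_le_mul_of_nonneg_left _ (by positivity)
          exact pow_le_pow_right₀ (by norm_num) (by omega)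
      _ = C3 * C4 * (((j : ℝ) + 1) * Real.pi) * (2 * Real.exp 3) ^ (m + n) *
          (s / Real.pi * q * F (1 / α) m ρ * F α n (α * ρ)) := by
          rw [mul_pow]
          have := Real.pi_ne_zero
          field_simp
  · intro hE
    refine hE.mono (fun m n => abs_nonneg _) (C := C1 * C2) (K := Real.exp 3)
      (Real.exp_pos _) fun m n => ?_
    rw [abs_aCoef_two hα hρ hg]
    set s := |Real.sin (Real.pi * (ρ + m * (1 / α)))| with hs
    have hs1 : s / Real.pi ≤ 1 := by
      rw [div_le_one Real.pi_pos]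
      have h5 : s ≤ 1 := Real.abs_sin_le_one _
      have h6 := Real.pi_gt_three
      linarith
    have hG := Real.Gamma_pos_of_pos (show 0 < ρ + (n + m / α) by positivity)
    have hG2 := Real.Gamma_pos_of_pos (show 0 < α * ρ + (m + α * n) by positivity)
    have hG3 := Real.Gamma_pos_of_pos (show 0 < 1 + ((n : ℝ) + m / α) by positivity)
    have hG4 := Real.Gamma_pos_of_pos (show 0 < 1 + ((m : ℝ) + α * n) by positivity)
    have hF := F_nonneg (1 / α) m ρ
    have hF' := F_nonneg α n (α * ρ)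
    have h5 := h1 (n + m / α) (by positivity)
    have h6 := h2 (m + α * n) (by positivity)
    have h7 : Real.Gamma (ρ + (n + m / α)) / Real.Gamma (α * ρ + (m + α * n)) ≤
        C1 * C2 * Real.exp 3 ^ (m + n) * cTwo α m n := by
      unfold cTwo
      rw [mul_div_assoc', div_le_div_iff₀ hG2 hG4]
      calc Real.Gamma (ρ + (n + m / α)) * Real.Gamma (1 + (m + α * n))
          ≤ (C1 * Real.exp (n + m / α) * Real.Gamma (1 + (n + m / α))) *
            (C2 * Real.exp (m + α * n) * Real.Gamma (α * ρ + (m + α * n))) :=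
            mul_le_mul h5 h6 hG4.le (by positivity)
        _ = C1 * C2 * (Real.exp (n + m / α) * Real.exp (m + α * n)) *
            Real.Gamma (1 + (n + m / α)) * Real.Gamma (α * ρ + (m + α * n)) := by ring
        _ ≤ C1 * C2 * Real.exp 3 ^ (m + n) *
            Real.Gamma (1 + (n + m / α)) * Real.Gamma (α * ρ + (m + α * n)) := by
            apply mul_le_mul_of_nonneg_right _ hG2.le
            apply mul_le_mul_of_nonneg_right _ hG3.le
            exact mul_le_mul_of_nonneg_left (hexp m n) (by positivity)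
    unfold coef
    rw [add_zero]
    set q := Real.Gamma (ρ + (n + m / α)) / Real.Gamma (α * ρ + (m + α * n)) with hq
    have hq0 : 0 < q := div_pos hG hG2
    calc s / Real.pi * q * F (1 / α) m ρ * F α n (α * ρ)
        ≤ 1 * q * F (1 / α) m ρ * F α n (α * ρ) := by
          apply mul_le_mul_of_nonneg_right _ hF'
          apply mul_le_mul_of_nonneg_right _ hF
          exact mul_le_mul_of_nonneg_right hs1 hq0.le
      _ ≤ (C1 * C2 * Real.exp 3 ^ (m + n) * cTwo α m n) * F (1 / α) m ρ * F α n (α * ρ) := by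
          rw [one_mul]
          apply mul_le_mul_of_nonneg_right _ hF'
          exact mul_le_mul_of_nonneg_right h7 hF
      _ = C1 * C2 * Real.exp 3 ^ (m + n) * (cTwo α m n * F (1 / α) m ρ * F α n (α * ρ)) := by
          ring

theorem main {α : ℝ} (hα : Irrational α) (h : α ∈ Set.Ioo (0 : ℝ) 1 ∪ Set.Ioo 1 2) :
    volume {ρ | ρ ∈ Set.Ioo (0 : ℝ) 1 ∧ AbsConv α ρ} = 0 ∨
      volume {ρ | ρ ∈ Set.Ioo (0 : ℝ) 1 ∧ ¬ AbsConv α ρ} = 0 := by
  have hα0 : 0 < α := by rcases h with h | h; exacts [h.1, by linarith [h.1]]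
  obtain ⟨c, hc, d, hcd⟩ : ∃ (c : ℕ → ℕ → ℝ) (_ : ∀ m n, 0 ≤ c m n) (d : ℕ),
      ∀ ρ, 0 < ρ → ρ ∈ Good (1 / α) → (AbsConv α ρ ↔ Entire (coef α c d ρ)) := by
    rcases h with h | h
    · exact ⟨cOne α, fun m n => abs_nonneg _, 1, fun ρ h1 h2 => absConv_one h.1 h.2 h1 h2⟩
    · exact ⟨cTwo α, fun m n => div_nonneg (Real.Gamma_pos_of_pos (by positivity)).le
        (Real.Gamma_pos_of_pos (by positivity)).le, 0,
        fun ρ h1 h2 => absConv_two h.1 h.2 h1 h2⟩
  have hgood := ae_both_good hα.ne_zero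
  have hbad : volume {ρ : ℝ | ¬ (ρ ∈ Good (1 / α) ∧ α * ρ ∈ Good α)} = 0 := hgood
  rcases conv_zero_one hα hc d with h1 | h1
  · left
    refine measure_mono_null (t := Conv α c d ∪ {ρ : ℝ | ¬ (ρ ∈ Good (1 / α) ∧ α * ρ ∈ Good α)})
      ?_ (measure_union_null h1 hbad)
    rintro ρ ⟨h2, h3⟩
    by_cases hg : ρ ∈ Good (1 / α) ∧ α * ρ ∈ Good α
    · exact Or.inl ⟨hg, (hcd ρ h2.1 hg.1).1 h3⟩
    · exact Or.inr hg
  · right
    refine measure_mono_null
      (t := (Conv α c d)ᶜ ∪ {ρ : ℝ | ¬ (ρ ∈ Good (1 / α) ∧ α * ρ ∈ Good α)})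
      ?_ (measure_union_null h1 hbad)
    rintro ρ ⟨h2, h3⟩
    by_cases hg : ρ ∈ Good (1 / α) ∧ α * ρ ∈ Good α
    · exact Or.inl fun h4 => h3 ((hcd ρ h2.1 hg.1).2 h4.2)
    · exact Or.inr hg

end Q289.ZO
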