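import Pool.Agent.Q289.ZO.Circle

/-!
# The sine products, and a set invariant under two translations
-/

set_option autoImplicit false

open MeasureTheory Filter Topology

namespace Q289.ZO

/-- the product of sines -/
noncomputable def F (b : ℝ) (m : ℕ) (x : ℝ) : ℝ :=
  ∏ j ∈ Finset.range m, |Real.sin (Real.pi * (x + j * b))| / |Real.sin (Real.pi * ((j + 1) * b))|

theorem F_nonneg (b : ℝ) (m : ℕ) (x : ℝ) : 0 ≤ F b m x :=
  Finset.prod_nonneg fun j _ => by positivity

theorem F_add_one (b : ℝ) (m : ℕ) (x : ℝ) : F b m (x + 1) = F b m x := by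
  unfold F
  refine Finset.prod_congr rfl fun j _ => ?_
  have : Real.pi * (x + 1 + j * b) = Real.pi * (x + j * b) + Real.pi := by ring
  rw [this, Real.sin_add_pi, abs_neg]

theorem F_add_self (b : ℝ) (m : ℕ) (x : ℝ) :
    F b m (x + b) * |Real.sin (Real.pi * x)| = F b m x * |Real.sin (Real.pi * (x + m * b))| := by
  unfold F
  rw [Finset.prod_div_distrib, Finset.prod_div_distrib]
  have h1 : (∏ j ∈ Finset.range m, |Real.sin (Real.pi * (x + b + j * b))|) *
      |Real.sin (Real.pi * x)| =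
      (∏ j ∈ Finset.range m, |Real.sin (Real.pi * (x + j * b))|) *
        |Real.sin (Real.pi * (x + m * b))| := by
    rw [← Finset.prod_range_succ (fun j => |Real.sin (Real.pi * (x + j * b))|) m,
      Finset.prod_range_succ']
    congr 1
    · refine Finset.prod_congr rfl fun j _ => ?_
      push_cast
      congr 3
      ring
    · simp
  rw [div_mul_eq_mul_div, h1, div_mul_eq_mul_div]

theorem F_compare {b x : ℝ} (hx : x ∈ Good b) : ∃ C : ℝ, 0 < C ∧ ∀ m : ℕ,
    F b m (x + b) ≤ C * F b m x ∧ F b m x ≤ C * 2 ^ m * F b m (x + b) := by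
  obtain ⟨h1, j, h2⟩ := hx
  have hs : 0 < |Real.sin (Real.pi * x)| := by
    have := h1 0
    push_cast at this
    rw [zero_mul, add_zero] at this
    exact abs_pos.2 this
  set s := |Real.sin (Real.pi * x)| with hsdef
  refine ⟨1 / s + ((j : ℝ) + 1), by positivity, fun m => ?_⟩
  have h3 := F_add_self b m x
  rw [← hsdef] at h3
  set t := |Real.sin (Real.pi * (x + m * b))| with ht
  have ht1 : t ≤ 1 := Real.abs_sin_le_one _
  have hs1 : s ≤ 1 := Real.abs_sin_le_one _
  have hF := F_nonneg b m x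
  have hF' := F_nonneg b m (x + b)
  constructor
  · have h4 : F b m (x + b) = 1 / s * (F b m x * t) := by
      rw [← h3]; field_simp
    rw [h4]
    have h5 : F b m x * t ≤ F b m x := by nlinarith
    have h6 : 1 / s * (F b m x * t) ≤ 1 / s * F b m x :=
      mul_le_mul_of_nonneg_left h5 (by positivity)
    refine h6.trans (mul_le_mul_of_nonneg_right ?_ hF)
    have := Nat.cast_nonneg (α := ℝ) j
    linarith
  · have h4 := h2 m
    rw [← ht] at h4
    have h5 : F b m x * (1 / ((j : ℝ) + 1) * (1 / 2) ^ m) ≤ F b m (x + b) := by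
      calc F b m x * (1 / ((j : ℝ) + 1) * (1 / 2) ^ m) ≤ F b m x * t :=
            mul_le_mul_of_nonneg_left h4 hF
        _ = F b m (x + b) * s := h3.symm
        _ ≤ F b m (x + b) := by nlinarith
    have h6 : F b m x = ((j : ℝ) + 1) * 2 ^ m *
        (F b m x * (1 / ((j : ℝ) + 1) * (1 / 2) ^ m)) := by
      have h7 : (2 : ℝ) ^ m * (1 / 2) ^ m = 1 := by rw [← mul_pow]; norm_num
      field_simp
      linear_combination (-F b m x) * h7
    calc F b m x = ((j : ℝ) + 1) * 2 ^ m *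
        (F b m x * (1 / ((j : ℝ) + 1) * (1 / 2) ^ m)) := h6
      _ ≤ ((j : ℝ) + 1) * 2 ^ m * F b m (x + b) := mul_le_mul_of_nonneg_left h5 (by positivity)
      _ ≤ (1 / s + ((j : ℝ) + 1)) * 2 ^ m * F b m (x + b) := by
          apply mul_le_mul_of_nonneg_right _ hF'
          apply mul_le_mul_of_nonneg_right _ (by positivity)
          have : 0 < 1 / s := by positivity
          linarith

/-- the power series with these coefficients converges everywhere -/
def Entire (u : ℕ → ℕ → ℝ) : Prop :=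
  ∀ R : ℝ, 0 < R → Summable fun p : ℕ × ℕ => u p.1 p.2 * R ^ (p.1 + p.2)

theorem Entire.mono {u v : ℕ → ℕ → ℝ} (hv : Entire v) (hu : ∀ m n, 0 ≤ u m n) {C K : ℝ}
    (hK : 0 < K) (h : ∀ m n, u m n ≤ C * K ^ (m + n) * v m n) : Entire u := by
  intro R hR
  have h1 := (hv (K * R) (by positivity)).mul_left C
  refine h1.of_nonneg_of_le (fun p => mul_nonneg (hu _ _) (by positivity)) fun p => ?_
  calc u p.1 p.2 * R ^ (p.1 + p.2) ≤ C * K ^ (p.1 + p.2) * v p.1 p.2 * R ^ (p.1 + p.2) :=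
        mul_le_mul_of_nonneg_right (h _ _) (by positivity)
    _ = C * (v p.1 p.2 * (K * R) ^ (p.1 + p.2)) := by rw [mul_pow]; ring

/-- the weighted products -/
noncomputable def coef (α : ℝ) (c : ℕ → ℕ → ℝ) (d : ℕ) (ρ : ℝ) (m n : ℕ) : ℝ :=
  c m n * F (1 / α) m ρ * F α (n + d) (α * ρ)

theorem coef_nonneg {α : ℝ} {c : ℕ → ℕ → ℝ} (hc : ∀ m n, 0 ≤ c m n) (d : ℕ) (ρ : ℝ) (m n : ℕ) :
    0 ≤ coef α c d ρ m n :=
  mul_nonneg (mul_nonneg (hc m n) (F_nonneg _ _ _)) (F_nonneg _ _ _)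

/-- the good parameters at which the weighted products are the coefficients of an entire series -/
def Conv (α : ℝ) (c : ℕ → ℕ → ℝ) (d : ℕ) : Set ℝ :=
  {ρ | (ρ ∈ Good (1 / α) ∧ α * ρ ∈ Good α) ∧ Entire (coef α c d ρ)}

theorem conv_add_one {α : ℝ} {c : ℕ → ℕ → ℝ} (hc : ∀ m n, 0 ≤ c m n) (d : ℕ) (ρ : ℝ) :
    ρ + 1 ∈ Conv α c d ↔ ρ ∈ Conv α c d := by
  have hg1 := good_add_one (1 / α) ρ
  have hg2 := good_add_self α (α * ρ)
  have he : α * (ρ + 1) = α * ρ + α := by ring
  unfold Conv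
  simp only [Set.mem_ofPred_eq, hg1, he, hg2]
  refine and_congr_right fun hgood => ?_
  obtain ⟨C, hC, h⟩ := F_compare hgood.2
  constructor
  · intro hE
    refine hE.mono (coef_nonneg hc d ρ) (C := C * 2 ^ d) (K := 2) (by norm_num) fun m n => ?_
    unfold coef
    rw [F_add_one, he]
    have h1 := (h (n + d)).2
    have h2 : 0 ≤ c m n * F (1 / α) m ρ := mul_nonneg (hc m n) (F_nonneg _ _ _)
    have h3 : (2 : ℝ) ^ n ≤ 2 ^ (m + n) := pow_le_pow_right₀ (by norm_num) (by omega)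
    have hF := F_nonneg α (n + d) (α * ρ + α)
    calc c m n * F (1 / α) m ρ * F α (n + d) (α * ρ)
        ≤ c m n * F (1 / α) m ρ * (C * 2 ^ (n + d) * F α (n + d) (α * ρ + α)) :=
          mul_le_mul_of_nonneg_left h1 h2
      _ = C * 2 ^ d * 2 ^ n * (c m n * F (1 / α) m ρ * F α (n + d) (α * ρ + α)) := by
          rw [pow_add]; ring
      _ ≤ C * 2 ^ d * 2 ^ (m + n) * (c m n * F (1 / α) m ρ * F α (n + d) (α * ρ + α)) := by
          apply mul_le_mul_of_nonneg_right _ (mul_nonneg h2 hF)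
          exact mul_le_mul_of_nonneg_left h3 (by positivity)
  · intro hE
    refine hE.mono (coef_nonneg hc d (ρ + 1)) (C := C) (K := 1) (by norm_num) fun m n => ?_
    unfold coef
    rw [F_add_one, he, one_pow, mul_one]
    have h1 := (h (n + d)).1
    have h2 : 0 ≤ c m n * F (1 / α) m ρ := mul_nonneg (hc m n) (F_nonneg _ _ _)
    calc c m n * F (1 / α) m ρ * F α (n + d) (α * ρ + α)
        ≤ c m n * F (1 / α) m ρ * (C * F α (n + d) (α * ρ)) := mul_le_mul_of_nonneg_left h1 h2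
      _ = C * (c m n * F (1 / α) m ρ * F α (n + d) (α * ρ)) := by ring

theorem conv_add_inv {α : ℝ} (hα : α ≠ 0) {c : ℕ → ℕ → ℝ} (hc : ∀ m n, 0 ≤ c m n) (d : ℕ) (ρ : ℝ) :
    ρ + 1 / α ∈ Conv α c d ↔ ρ ∈ Conv α c d := by
  have hg1 := good_add_self (1 / α) ρ
  have hg2 := good_add_one α (α * ρ)
  have he : α * (ρ + 1 / α) = α * ρ + 1 := by field_simp
  unfold Conv
  simp only [Set.mem_ofPred_eq, hg1, he, hg2]
  refine and_congr_right fun hgood => ?_
  obtain ⟨C, hC, h⟩ := F_compare hgood.1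
  constructor
  · intro hE
    refine hE.mono (coef_nonneg hc d ρ) (C := C) (K := 2) (by norm_num) fun m n => ?_
    unfold coef
    rw [he, F_add_one]
    have h1 := (h m).2
    have h3 : (2 : ℝ) ^ m ≤ 2 ^ (m + n) := pow_le_pow_right₀ (by norm_num) (by omega)
    have hF := F_nonneg α (n + d) (α * ρ)
    have hF' := F_nonneg (1 / α) m (ρ + 1 / α)
    have hcm := hc m n
    calc c m n * F (1 / α) m ρ * F α (n + d) (α * ρ)
        ≤ c m n * (C * 2 ^ m * F (1 / α) m (ρ + 1 / α)) * F α (n + d) (α * ρ) :=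
          mul_le_mul_of_nonneg_right (mul_le_mul_of_nonneg_left h1 hcm) hF
      _ = C * 2 ^ m * (c m n * F (1 / α) m (ρ + 1 / α) * F α (n + d) (α * ρ)) := by ring
      _ ≤ C * 2 ^ (m + n) * (c m n * F (1 / α) m (ρ + 1 / α) * F α (n + d) (α * ρ)) := by
          apply mul_le_mul_of_nonneg_right _ (mul_nonneg (mul_nonneg hcm hF') hF)
          exact mul_le_mul_of_nonneg_left h3 (by positivity)
  · intro hE
    refine hE.mono (coef_nonneg hc d (ρ + 1 / α)) (C := C) (K := 1) (by norm_num) fun m n => ?_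
    unfold coef
    rw [he, F_add_one, one_pow, mul_one]
    have h1 := (h m).1
    have hF := F_nonneg α (n + d) (α * ρ)
    calc c m n * F (1 / α) m (ρ + 1 / α) * F α (n + d) (α * ρ)
        ≤ c m n * (C * F (1 / α) m ρ) * F α (n + d) (α * ρ) :=
          mul_le_mul_of_nonneg_right (mul_le_mul_of_nonneg_left h1 (hc m n)) hF
      _ = C * (c m n * F (1 / α) m ρ * F α (n + d) (α * ρ)) := by ring

theorem measurable_F (b : ℝ) (m : ℕ) : Measurable (F b m) := by
  unfold F
  exact Finset.measurable_prod _ fun j _ => by fun_prop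

theorem entire_iff_nat {u : ℕ → ℕ → ℝ} (hu : ∀ m n, 0 ≤ u m n) :
    Entire u ↔ ∀ R : ℕ, Summable fun p : ℕ × ℕ => u p.1 p.2 * (R : ℝ) ^ (p.1 + p.2) := by
  constructor
  · intro h R
    have h1 := h ((R : ℝ) + 1) (by positivity)
    refine h1.of_nonneg_of_le (fun p => mul_nonneg (hu _ _) (by positivity)) fun p => ?_
    refine mul_le_mul_of_nonneg_left ?_ (hu _ _)
    exact pow_le_pow_left₀ (Nat.cast_nonneg _) (by linarith) _
  · intro h R hR
    obtain ⟨N, hN⟩ := exists_nat_ge R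
    refine (h N).of_nonneg_of_le (fun p => mul_nonneg (hu _ _) (by positivity)) fun p => ?_
    refine mul_le_mul_of_nonneg_left ?_ (hu _ _)
    exact pow_le_pow_left₀ hR.le hN _

theorem measurableSet_summable {ι : Type} [Countable ι] (f : ι → ℝ → ℝ)
    (hf : ∀ i, Measurable (f i)) (h0 : ∀ i x, 0 ≤ f i x) :
    MeasurableSet {x | Summable fun i => f i x} := by
  have h1 : {x | Summable fun i => f i x} = {x | ∑' i, ENNReal.ofReal (f i x) ≠ ⊤} := by
    ext x
    simp only [Set.mem_ofPred_eq]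
    constructor
    · intro h
      rw [← ENNReal.ofReal_tsum_of_nonneg (fun i => h0 i x) h]
      exact ENNReal.ofReal_ne_top
    · intro h
      have h2 := ENNReal.summable_toReal h
      refine h2.congr fun i => ?_
      exact ENNReal.toReal_ofReal (h0 i x)
  rw [h1]
  have h2 : Measurable fun x => ∑' i, ENNReal.ofReal (f i x) :=
    Measurable.tsum fun i => (hf i).ennreal_ofReal
  exact (measurableSet_eq_fun h2 measurable_const).compl

theorem measurableSet_conv (α : ℝ) {c : ℕ → ℕ → ℝ} (hc : ∀ m n, 0 ≤ c m n) (d : ℕ) :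
    MeasurableSet (Conv α c d) := by
  have h1 : Conv α c d = (Good (1 / α) ∩ (fun ρ => α * ρ) ⁻¹' Good α) ∩
      ⋂ R : ℕ, {ρ | Summable fun p : ℕ × ℕ => coef α c d ρ p.1 p.2 * (R : ℝ) ^ (p.1 + p.2)} := by
    ext ρ
    simp only [Conv, Set.mem_ofPred_eq, Set.mem_inter_iff, Set.mem_preimage, Set.mem_iInter]
    rw [entire_iff_nat (coef_nonneg hc d ρ)]
  rw [h1]
  refine MeasurableSet.inter ((measurableSet_good _).inter
    ((measurableSet_good _).preimage (by fun_prop))) (MeasurableSet.iInter fun R => ?_)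
  have hm : ∀ p : ℕ × ℕ, Measurable fun ρ : ℝ => coef α c d ρ p.1 p.2 * (R : ℝ) ^ (p.1 + p.2) := by
    intro p
    have h2 : Measurable fun ρ : ℝ => F (1 / α) p.1 ρ := measurable_F _ _
    have h3 : Measurable fun ρ : ℝ => α * ρ := by fun_prop
    have h4 : Measurable fun ρ : ℝ => F α (p.2 + d) (α * ρ) := (measurable_F _ _).comp h3
    exact ((h2.const_mul (c p.1 p.2)).mul h4).mul_const _
  exact measurableSet_summable _ hm
    (fun p ρ => mul_nonneg (coef_nonneg hc d ρ _ _) (by positivity))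

/-- the zero-one law -/
theorem conv_zero_one {α : ℝ} (hα : Irrational α) {c : ℕ → ℕ → ℝ} (hc : ∀ m n, 0 ≤ c m n)
    (d : ℕ) : volume (Conv α c d) = 0 ∨ volume (Conv α c d)ᶜ = 0 := by
  have hβ : Irrational (1 / α) := by
    rw [one_div]; exact hα.inv
  exact zero_one hβ (measurableSet_conv α hc d) (conv_add_one hc d) (conv_add_inv hα.ne_zero hc d)

theorem ae_both_good {α : ℝ} (hα : α ≠ 0) :
    ∀ᵐ ρ : ℝ, ρ ∈ Good (1 / α) ∧ α * ρ ∈ Good α := by
  have h1 : ∀ᵐ ρ : ℝ, α * ρ ∈ Good α := by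
    rw [ae_iff]
    have h2 : {ρ : ℝ | ¬ α * ρ ∈ Good α} = (α * ·) ⁻¹' (Good α)ᶜ := rfl
    rw [h2, Real.volume_preimage_mul_left hα]
    have h3 : volume (Good α)ᶜ = 0 := ae_good α
    rw [h3, mul_zero]
  filter_upwards [ae_good (1 / α), h1] with ρ h2 h3
  exact ⟨h2, h3⟩

end Q289.ZO
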